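import Mathlib
import Pool.Agent.H.MP_38bec9_co.A

set_option autoImplicit false

namespace Pool.Agent.Results.MP_97b8d2_co.No

open Pool.Agent.H.MP_38bec9_co Finset Metric

/-- `H` is an induced minor of `G` (branch sets). -/
def InducedMinor {W V : Type} (H : SimpleGraph W) (G : SimpleGraph V) : Prop :=
  ∃ X : W → Set V, (∀ a, (G.induce (X a)).Connected) ∧ (∀ a b, a ≠ b → Disjoint (X a) (X b)) ∧
    ∀ a b, a ≠ b → (H.Adj a b ↔ ∃ u ∈ X a, ∃ v ∈ X b, G.Adj u v)

/-- `G` is the intersection graph of spheres in `ℝ^d`. -/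
def SphereGraph {V : Type} (G : SimpleGraph V) (d : ℕ) : Prop :=
  ∃ (c : V → EuclideanSpace ℝ (Fin d)) (r : V → ℝ), (∀ v, 0 < r v) ∧
    ∀ u v, u ≠ v → (G.Adj u v ↔ (sphere (c u) (r u) ∩ sphere (c v) (r v)).Nonempty)

/-- `G` is the intersection graph of chords of a circle. -/
def CircleGraph {V : Type} (G : SimpleGraph V) : Prop :=
  ∃ p q : V → EuclideanSpace ℝ (Fin 2), (∀ v, ‖p v‖ = 1 ∧ ‖q v‖ = 1 ∧ p v ≠ q v) ∧
    ∀ u v, u ≠ v → (G.Adj u v ↔ (segment ℝ (p u) (q u) ∩ segment ℝ (p v) (q v)).Nonempty)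

theorem shat {n : ℕ} {κ J : Type} [Fintype κ] [Fintype J] (a : Fin n × κ → J → ℝ)
    (x : Finset (Fin n) → J → ℝ) (Φ : (κ → Prop) → Prop)
    (h : ∀ s i, i ∈ s ↔ Φ fun k => 0 < ∑ j, a (i, k) j * x s j) :
    2 ^ n ≤ (n * Fintype.card κ + 1) ^ Fintype.card J := by
  classical
  let T : Finset (Fin n) → Finset (Fin n × κ) := fun s => {z | 0 < ∑ j, a z j * x s j}
  have hT : Function.Injective T := fun s t e => by
    ext i
    rw [h, h]
    congr! 2 with k
    have := congrArg (fun A => (i, k) ∈ A) e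
    simpa [T] using this
  have := signs (fun z => ∑ j, a z j • LinearMap.proj j) (univ.image T) (by
    intro S hS
    obtain ⟨s, -, rfl⟩ := mem_image.mp hS
    exact ⟨x s, fun z => by simp [T]⟩)
  rw [card_image_of_injective _ hT] at this
  simpa using this

theorem sph {d : ℕ} (hd : 2 ≤ d) (c e : EuclideanSpace ℝ (Fin d)) {r s : ℝ} (hr : 0 < r)
    (hs : 0 < s) : (sphere c r ∩ sphere e s).Nonempty ↔
      ¬ 0 < dist c e ^ 2 - (r + s) ^ 2 ∧ ¬ 0 < (r - s) ^ 2 - dist c e ^ 2 := by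
  have h0 : 0 ≤ dist c e := dist_nonneg
  rw [sub_pos, sub_pos, not_lt, not_lt, sq_le_sq, sq_le_sq, abs_of_nonneg h0,
    abs_of_pos (add_pos hr hs), abs_le]
  constructor
  · rintro ⟨x, h1, h2⟩
    rw [mem_sphere] at h1 h2
    have a1 := dist_triangle_left c e x
    have a2 := dist_triangle x c e
    have a3 := dist_triangle_right x c e
    exact ⟨by linarith, by linarith, by linarith⟩
  · rintro ⟨h1, h2, h3⟩
    have hrk : 1 < Module.rank ℝ (EuclideanSpace ℝ (Fin d)) := by
      rw [← Module.finrank_eq_rank, finrank_euclideanSpace_fin]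
      exact_mod_cast hd
    obtain ⟨u, hu, hu2⟩ : ∃ u : EuclideanSpace ℝ (Fin d), ‖u‖ = 1 ∧ e = c + dist c e • u := by
      by_cases h : c = e
      · have := rank_pos_iff_nontrivial.mp (zero_lt_one.trans hrk)
        obtain ⟨u, hu⟩ := exists_norm_eq (EuclideanSpace ℝ (Fin d)) zero_le_one
        exact ⟨u, hu, by simp [h]⟩
      · have : dist c e ≠ 0 := by simpa using h
        refine ⟨(dist c e)⁻¹ • (e - c), ?_, by rw [smul_inv_smul₀ this]; simp⟩
        rw [norm_smul, norm_inv, Real.norm_of_nonneg h0, ← dist_eq_norm, dist_comm e c,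
          inv_mul_cancel₀ this]
    have k : ∀ t : ℝ, dist (c + t • u) e = |t - dist c e| := fun t => by
      conv_lhs => rw [hu2]
      rw [dist_add_left, dist_eq_norm, ← sub_smul, norm_smul, hu, mul_one, Real.norm_eq_abs]
    have k2 : ∀ t : ℝ, |t| = r → c + t • u ∈ sphere c r := fun t ht => by
      simp [norm_smul, hu, ht]
    obtain ⟨x, hx, hx2⟩ := (isPreconnected_sphere hrk c r).intermediate_value
      (k2 r (abs_of_pos hr)) (k2 (-r) (by rw [abs_neg, abs_of_pos hr])) (f := fun x => dist x e)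
      (by fun_prop) (show s ∈ _ from ⟨by
        beta_reduce
        rw [k, abs_le]; exact ⟨by linarith, by linarith⟩, by
        beta_reduce
        rw [k, abs_of_nonpos (by linarith)]; linarith⟩)
    exact ⟨x, hx, hx2⟩

theorem chord (p q r s : EuclideanSpace ℝ (Fin 2)) (hp : ‖p‖ = 1) (hq : ‖q‖ = 1) (hr : ‖r‖ = 1)
    (hs : ‖s‖ = 1) (hrs : r ≠ s) (f : EuclideanSpace ℝ (Fin 2) → ℝ)
    (hf : ∀ x, f x = (s 0 - r 0) * (x 1 - r 1) - (s 1 - r 1) * (x 0 - r 0)) :
    (segment ℝ p q ∩ segment ℝ r s).Nonempty ↔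
      ¬ (0 < f p ∧ 0 < f q) ∧ ¬ (0 < - f p ∧ 0 < - f q) := by
  have lin : ∀ (x y : EuclideanSpace ℝ (Fin 2)) (a b : ℝ), a + b = 1 →
      f (a • x + b • y) = a * f x + b * f y := fun x y a b h => by
    obtain rfl : b = 1 - a := by linarith
    simp only [hf, PiLp.add_apply, PiLp.smul_apply, smul_eq_mul]; ring
  constructor
  · rintro ⟨x, ⟨a, b, ha, hb, hab, rfl⟩, a', b', -, -, hab', e⟩
    have h1 := lin p q a b hab
    rw [← e, lin r s a' b' hab', hf r, hf s] at h1
    have h2 : a * f p + b * f q = 0 := by rw [← h1]; ring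
    have key : ∀ y z : ℝ, 0 < y → 0 < z → 0 < a * y + b * z := fun y z hy hz => by
      rcases eq_or_lt_of_le ha with h | h
      · rw [← h, zero_add] at hab
        rw [← h, hab]; linarith
      · have := mul_pos h hy
        have := mul_nonneg hb hz.le
        linarith
    constructor <;> rintro ⟨k1, k2⟩ <;> have := key _ _ k1 k2 <;> linarith
  · rintro ⟨h1, h2⟩
    obtain ⟨x, hx, hx0⟩ : ∃ x ∈ segment ℝ p q, f x = 0 := by
      have hc : Continuous f := by rw [funext hf]; fun_prop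
      have := (convex_segment (𝕜 := ℝ) p q).isPreconnected
      rcases le_total (f p) (f q) with h | h
      · exact this.intermediate_value (left_mem_segment _ _ _) (right_mem_segment _ _ _)
          hc.continuousOn ⟨by by_contra k; exact h1 ⟨by linarith, by linarith⟩,
            by by_contra k; exact h2 ⟨by linarith, by linarith⟩⟩
      · exact this.intermediate_value (right_mem_segment _ _ _) (left_mem_segment _ _ _)
          hc.continuousOn ⟨by by_contra k; exact h1 ⟨by linarith, by linarith⟩,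
            by by_contra k; exact h2 ⟨by linarith, by linarith⟩⟩
    have hn : ‖x‖ ≤ 1 := by
      have := (convex_closedBall (0 : EuclideanSpace ℝ (Fin 2)) 1).segment_subset
        (by simp [hp]) (by simp [hq]) hx
      simpa using this
    refine ⟨x, hx, ?_⟩
    rw [hf] at hx0
    obtain ⟨t, t0, t1⟩ : ∃ t : ℝ, x 0 = r 0 + t * (s 0 - r 0) ∧ x 1 = r 1 + t * (s 1 - r 1) := by
      by_cases h : s 0 - r 0 = 0
      · have h' : s 1 - r 1 ≠ 0 := fun h' => hrs (by
          ext i; fin_cases i <;> simp <;> linarith)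
        refine ⟨(x 1 - r 1) / (s 1 - r 1), ?_, by field_simp; ring⟩
        rw [h] at hx0 ⊢
        have : x 0 - r 0 = 0 := by
          rw [zero_mul, zero_sub, neg_eq_zero] at hx0
          exact (mul_eq_zero.mp hx0).resolve_left h'
        linarith
      · exact ⟨(x 0 - r 0) / (s 0 - r 0), by field_simp; ring, by field_simp; linarith⟩
    have sq : ∀ y : EuclideanSpace ℝ (Fin 2), ‖y‖ ^ 2 = y 0 ^ 2 + y 1 ^ 2 := fun y => by
      rw [EuclideanSpace.real_norm_sq_eq, Fin.sum_univ_two]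
    have n1 := sq r
    have n2 := sq s
    have n3 := sq x
    have n4 : 0 < (s 0 - r 0) ^ 2 + (s 1 - r 1) ^ 2 := by
      have := sq (s - r)
      simp only [PiLp.sub_apply] at this
      rw [← this]
      exact pow_pos (norm_pos_iff.mpr (sub_ne_zero.mpr hrs.symm)) 2
    have n5 : ‖x‖ ^ 2 ≤ 1 := pow_le_one₀ (norm_nonneg _) hn
    rw [hr] at n1
    rw [hs] at n2
    have n6 : t * (t - 1) * ((s 0 - r 0) ^ 2 + (s 1 - r 1) ^ 2) ≤ 0 := by
      rw [n3, t0, t1] at n5
      have : t * (r 0 ^ 2 + r 1 ^ 2) = t * (s 0 ^ 2 + s 1 ^ 2) := by rw [← n1, ← n2]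
      nlinarith
    have n7 : t * (t - 1) ≤ 0 := nonpos_of_mul_nonpos_left n6 n4
    refine ⟨1 - t, t, by nlinarith, by nlinarith, by ring, ?_⟩
    ext i
    fin_cases i <;> simp <;> linarith

def R (n : ℕ) : Fin n ⊕ Finset (Fin n) → Fin n ⊕ Finset (Fin n) → Prop
  | Sum.inl i, Sum.inr s => i ∈ s
  | Sum.inr _, Sum.inl _ => False
  | _, _ => True

theorem big (k : ℕ) : ∃ n, (n * 4 + 1) ^ k < 2 ^ n := by
  have h := (tendsto_pow_const_div_const_pow_of_one_lt k one_lt_two).eventually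
    (gt_mem_nhds (show (0 : ℝ) < 1 / 5 ^ k by positivity))
  obtain ⟨n, h1, h2⟩ := (h.and (Filter.eventually_ge_atTop 1)).exists
  refine ⟨n, lt_of_le_of_lt (Nat.pow_le_pow_left (show n * 4 + 1 ≤ n * 5 by omega) k) ?_⟩
  rw [div_lt_div_iff₀ (by positivity) (by positivity), one_mul, ← mul_pow] at h1
  exact_mod_cast h1

/-- If `H` has three pairwise non-adjacent vertices, the graphs without an induced minor `H`
have unbounded sphere dimension. -/
theorem result {W : Type} (H : SimpleGraph W) (a b c : W) (hab : a ≠ b) (hac : a ≠ c)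
    (hbc : b ≠ c) (h1 : ¬ H.Adj a b) (h2 : ¬ H.Adj a c) (h3 : ¬ H.Adj b c) (D : ℕ) :
    ∃ (V : Type) (_ : Fintype V) (G : SimpleGraph V), ¬ InducedMinor H G ∧ ¬ CircleGraph G ∧
      ∀ d, 2 ≤ d → d ≤ D → ¬ SphereGraph G d := by
  obtain ⟨n, hn⟩ := big (D + 3)
  have adj : ∀ i s, (SimpleGraph.fromRel (R n)).Adj (Sum.inl i) (Sum.inr s) ↔ i ∈ s := by
    simp [R]
  refine ⟨_, inferInstance, SimpleGraph.fromRel (R n), ?_, ?_, ?_⟩
  · rintro ⟨X, k1, k2, k3⟩
    choose x hx using fun w => (k1 w).nonempty.elim fun y => (⟨y.1, y.2⟩ : ∃ y, y ∈ X w)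
    have key : ∀ u v, u ≠ v → ¬ H.Adj u v → (x u).isLeft ≠ (x v).isLeft := fun u v h h' e => by
      refine h' ((k3 u v h).mpr ⟨_, hx u, _, hx v, fun e' => ?_, ?_⟩)
      · exact Set.disjoint_left.mp (k2 u v h) (hx u) (e' ▸ hx v)
      · revert e
        rcases x u with i | i <;> rcases x v with j | j <;> simp [R]
    exact (by decide : ∀ s t u : Bool, s ≠ t → s ≠ u → t ≠ u → False) _ _ _ (key a b hab h1)
      (key a c hac h2) (key b c hbc h3)
  · rintro ⟨p, q, k1, k2⟩
    have := shat (n := n) (κ := Bool × Bool) (J := Fin 3)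
      (fun z => (if z.2.2 then 1 else -1 : ℝ) •
        ![(if z.2.1 then p else q) (Sum.inl z.1) 0, (if z.2.1 then p else q) (Sum.inl z.1) 1, 1])
      (fun s => ![p (Sum.inr s) 1 - q (Sum.inr s) 1, q (Sum.inr s) 0 - p (Sum.inr s) 0,
        q (Sum.inr s) 1 * p (Sum.inr s) 0 - q (Sum.inr s) 0 * p (Sum.inr s) 1])
      (fun φ => ¬ (φ (true, true) ∧ φ (false, true)) ∧ ¬ (φ (true, false) ∧ φ (false, false)))
      (fun s i => by
        rw [← adj, k2 _ _ (by simp), chord _ _ _ _ (k1 _).1 (k1 _).2.1 (k1 _).1 (k1 _).2.1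
          (k1 _).2.2 _ fun _ => rfl]
        simp only [Fin.sum_univ_three]
        congr! 4 <;> simp <;> ring)
    refine absurd (this.trans ?_) (not_le.mpr hn)
    simpa using Nat.pow_le_pow_right (by omega) (by omega)
  · rintro d hd hD ⟨c, r, k1, k2⟩
    have := shat (n := n) (κ := Bool) (J := Fin d ⊕ Fin 3)
      (fun z => (if z.2 then 1 else -1 : ℝ) • Sum.elim (fun j => -2 * c (Sum.inl z.1) j)
        ![(if z.2 then -2 else 2) * r (Sum.inl z.1), 1,
          ∑ j, c (Sum.inl z.1) j ^ 2 - r (Sum.inl z.1) ^ 2])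
      (fun s => Sum.elim (c (Sum.inr s))
        ![r (Sum.inr s), ∑ j, c (Sum.inr s) j ^ 2 - r (Sum.inr s) ^ 2, 1])
      (fun φ => ¬ φ true ∧ ¬ φ false)
      (fun s i => by
        rw [← adj, k2 _ _ (by simp), sph hd _ _ (k1 _) (k1 _), EuclideanSpace.dist_sq_eq]
        have : ∑ j, dist (c (Sum.inl i) j) (c (Sum.inr s) j) ^ 2 = ∑ j, c (Sum.inl i) j ^ 2 +
            ∑ j, c (Sum.inr s) j ^ 2 - 2 * ∑ j, c (Sum.inl i) j * c (Sum.inr s) j := by
          rw [mul_sum, ← sum_add_distrib, ← sum_sub_distrib]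
          exact sum_congr rfl fun j _ => by rw [Real.dist_eq, sq_abs]; ring
        rw [this]
        simp only [Fintype.sum_sum_type, Fin.sum_univ_three]
        congr! 3 <;> simp [mul_assoc, ← mul_sum] <;> ring)
    refine absurd (this.trans ?_) (not_le.mpr hn)
    simp only [Fintype.card_bool, Fintype.card_sum, Fintype.card_fin]
    exact (Nat.pow_le_pow_left (by omega) _).trans (Nat.pow_le_pow_right (by omega) (by omega))

end Pool.Agent.Results.MP_97b8d2_co.No
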